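import Pool.Agent.helper48.AGR.Spec

set_option autoImplicit false

namespace Pool.Agent.AGR

open Monoid Function

section LETaux

variable {L R C : Type} [Group L] [Group R] [Group C] {f : C →* L} {g : C →* R}

theorem LET_pos {a b : Bool} {n : ℕ} {x : Am f g} (h : Red f g a b n x) : 1 ≤ n := by
  induction h with
  | l x h => exact le_rfl
  | r x h => exact le_rfl
  | app hx hy h1 h2 => omega

theorem LET_one {a b : Bool} {n : ℕ} {x : Am f g} (h : Red f g a b n x) (hn : n = 1) : a = b ∧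
    ((a = false ∧ ∃ l, l ∉ f.range ∧ x = inl l) ∨ (a = true ∧ ∃ r, r ∉ g.range ∧ x = inr r)) := by
  cases h with
  | l x h => exact ⟨rfl, Or.inl ⟨rfl, x, h, rfl⟩⟩
  | r x h => exact ⟨rfl, Or.inr ⟨rfl, x, h, rfl⟩⟩
  | app hx hy =>
    have h1 := LET_pos hx
    have h2 := LET_pos hy
    omega

theorem LET_absR {a b : Bool} {n : ℕ} {x : Am f g} (c : C) (h : Red f g a b n x) :
    Red f g a b n (x * inl (f c)) := by
  induction h with
  | l x h =>
    rw [← map_mul]
    refine Red.l _ fun hx => h ?_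
    obtain ⟨d, hd⟩ := hx
    exact ⟨d * c⁻¹, by rw [map_mul, hd, map_inv, mul_inv_cancel_right]⟩
  | r x h =>
    rw [glue, ← map_mul]
    refine Red.r _ fun hx => h ?_
    obtain ⟨d, hd⟩ := hx
    exact ⟨d * c⁻¹, by rw [map_mul, hd, map_inv, mul_inv_cancel_right]⟩
  | app hx hy h1 h2 =>
    rw [mul_assoc]
    exact Red.app hx h2

theorem LET_absL {a b : Bool} {n : ℕ} {x : Am f g} (c : C) (h : Red f g a b n x) :
    Red f g a b n (inl (f c) * x) := by
  induction h with
  | l x h =>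
    rw [← map_mul]
    refine Red.l _ fun hx => h ?_
    obtain ⟨d, hd⟩ := hx
    exact ⟨c⁻¹ * d, by rw [map_mul, hd, map_inv, inv_mul_cancel_left]⟩
  | r x h =>
    rw [glue, ← map_mul]
    refine Red.r _ fun hx => h ?_
    obtain ⟨d, hd⟩ := hx
    exact ⟨c⁻¹ * d, by rw [map_mul, hd, map_inv, inv_mul_cancel_left]⟩
  | app hx hy h1 h2 =>
    rw [← mul_assoc]
    exact Red.app h1 hy

theorem LET_last {a b : Bool} {n : ℕ} {x : Am f g} (h : Red f g a b n x) (hn : 2 ≤ n) :
    ∃ y z, x = y * z ∧ Red f g a (!b) (n - 1) y ∧ Red f g b b 1 z := by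
  induction h with
  | l x h => omega
  | r x h => omega
  | @app a b d m n x y hx hy h1 h2 =>
    have p1 := LET_pos hx
    have p2 := LET_pos hy
    by_cases hn1 : n = 1
    · subst hn1
      obtain ⟨e, _⟩ := LET_one hy rfl
      subst e
      refine ⟨x, y, rfl, ?_, hy⟩
      rw [Bool.not_not, Nat.add_sub_cancel]
      exact hx
    · obtain ⟨y1, z1, e, r1, r2⟩ := h2 (by omega)
      refine ⟨x * y1, z1, by rw [e, mul_assoc], ?_, r2⟩
      have e2 : m + n - 1 = m + (n - 1) := by omega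
      rw [e2]
      exact Red.app hx r1

theorem LET_first {a b : Bool} {n : ℕ} {x : Am f g} (h : Red f g a b n x) (hn : 2 ≤ n) :
    ∃ y z, x = y * z ∧ Red f g a a 1 y ∧ Red f g (!a) b (n - 1) z := by
  induction h with
  | l x h => omega
  | r x h => omega
  | @app a b d m n x y hx hy h1 h2 =>
    have p1 := LET_pos hx
    have p2 := LET_pos hy
    by_cases hm1 : m = 1
    · subst hm1
      obtain ⟨e, _⟩ := LET_one hx rfl
      subst e
      refine ⟨x, y, rfl, hx, ?_⟩
      rw [Nat.add_sub_cancel_left]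
      exact hy
    · obtain ⟨y1, z1, e, r1, r2⟩ := h1 (by omega)
      refine ⟨y1, z1 * y, by rw [e, mul_assoc], r1, ?_⟩
      have e2 : m + n - 1 = (m - 1) + n := by omega
      rw [e2]
      exact Red.app r2 hy

theorem LET_mul {a : Bool} {x y : Am f g} (hx : Red f g a a 1 x) (hy : Red f g a a 1 y) :
    (∃ c, x * y = inl (f c)) ∨ Red f g a a 1 (x * y) := by
  obtain ⟨_, h1⟩ := LET_one hx rfl
  obtain ⟨_, h2⟩ := LET_one hy rfl
  rcases h1 with ⟨ha, l, hl, rfl⟩ | ⟨ha, r, hr, rfl⟩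
  · subst ha
    rcases h2 with ⟨_, l', hl', rfl⟩ | ⟨hb, _⟩
    · rw [← map_mul]
      by_cases h : l * l' ∈ f.range
      · obtain ⟨c, hc⟩ := h
        exact Or.inl ⟨c, by rw [hc]⟩
      · exact Or.inr (Red.l _ h)
    · exact absurd hb (by decide)
  · subst ha
    rcases h2 with ⟨hb, _⟩ | ⟨_, r', hr', rfl⟩
    · exact absurd hb (by decide)
    · rw [← map_mul]
      by_cases h : r * r' ∈ g.range
      · obtain ⟨c, hc⟩ := h
        exact Or.inl ⟨c, by rw [glue, hc]⟩
      · exact Or.inr (Red.r _ h)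

theorem LET_inv {a b : Bool} {n : ℕ} {x : Am f g} (h : Red f g a b n x) : Red f g b a n x⁻¹ := by
  induction h with
  | l x h =>
    rw [← map_inv]
    exact Red.l _ fun hx => h (inv_mem_iff.1 hx)
  | r x h =>
    rw [← map_inv]
    exact Red.r _ fun hx => h (inv_mem_iff.1 hx)
  | @app a b d m n x y hx hy h1 h2 =>
    rw [mul_inv_rev, add_comm]
    refine Red.app h2 ?_
    rw [Bool.not_not]
    exact h1

end LETaux

theorem LET : LET_stmt := by
  intro L R C _ _ _ f g
  exact ⟨fun _ _ _ _ h => LET_pos h, fun _ _ _ h => LET_one h rfl,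
    fun _ _ _ _ c h => ⟨LET_absR c h, LET_absL c h⟩, fun _ _ _ _ h hn => LET_last h hn,
    fun _ _ _ _ h hn => LET_first h hn, fun _ _ _ hx hy => LET_mul hx hy,
    fun _ _ _ _ h => LET_inv h⟩

end Pool.Agent.AGR
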